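import Pool.Agent.U126.QL.Poly

/-!
# The extreme columns of a self-avoiding polygon, supporting lines and circles

A long self-avoiding polygon on `ℤ²` has few vertices in its `r` leftmost columns, and few vertices
close to any line or circle which has the polygon on one side. The bounds grow with `r` only like
`exp (K (log r)^3)`.
-/

set_option autoImplicit false

namespace Pool.Agent.Results.MP_c23e5f_co.ExtremeColumnsLog

open scoped Classical

/-- a closed nearest-neighbour loop on `ℤ²` with `m` steps, rooted at the origin and oriented,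
that visits no vertex twice -/
def IsLoop (m : ℕ) (f : ZMod m → ℤ × ℤ) : Prop :=
  f 0 = 0 ∧ Function.Injective f ∧
    ∀ i : ZMod m, |(f (i + 1)).1 - (f i).1| + |(f (i + 1)).2 - (f i).2| = 1

/-- the rooted oriented polygons of perimeter `2 N` -/
def loops (N : ℕ) : Set (ZMod (2 * N) → ℤ × ℤ) := {f | IsLoop (2 * N) f}

/-- the probability of `A` for the uniform rooted oriented polygon of perimeter `2 N` -/
noncomputable def prob (N : ℕ) (A : (ZMod (2 * N) → ℤ × ℤ) → Prop) : ℝ :=
  ({f | f ∈ loops N ∧ A f}.ncard : ℝ) / ((loops N).ncard : ℝ)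

/-- the Euclidean distance of the lattice point `p` from the point `z` of the plane -/
noncomputable def dist (z : ℝ × ℝ) (p : ℤ × ℤ) : ℝ :=
  Real.sqrt (((p.1 : ℝ) - z.1) ^ 2 + ((p.2 : ℝ) - z.2) ^ 2)

/-- the number of vertices within distance `r` of the line `a x + b y = c` -/
noncomputable def nearLine {N : ℕ} (a b c : ℝ) (r : ℕ) (f : ZMod (2 * N) → ℤ × ℤ) : ℕ :=
  {i : ZMod (2 * N) | |a * (f i).1 + b * (f i).2 - c| ≤ r * Real.sqrt (a ^ 2 + b ^ 2)}.ncard

/-- the number of vertices within distance `r` of the circle with centre `z` and radius `ρ` -/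
noncomputable def nearCircle {N : ℕ} (z : ℝ × ℝ) (ρ : ℝ) (r : ℕ)
    (f : ZMod (2 * N) → ℤ × ℤ) : ℕ :=
  {i : ZMod (2 * N) | |dist z (f i) - ρ| ≤ r}.ncard

/-- the number of vertices in the columns which are at distance at most `r` from the leftmost
column of the polygon -/
noncomputable def leftmost {N : ℕ} (r : ℕ) (f : ZMod (2 * N) → ℤ × ℤ) : ℕ :=
  {i : ZMod (2 * N) | ∀ j, (f i).1 ≤ (f j).1 + r}.ncard

/-- the number of vertices in the columns which are at distance at most `r` from the rightmost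
column of the polygon -/
noncomputable def rightmost {N : ℕ} (r : ℕ) (f : ZMod (2 * N) → ℤ × ℤ) : ℕ :=
  {i : ZMod (2 * N) | ∀ j, (f j).1 ≤ (f i).1 + r}.ncard

/-- the bound `exp (K (log (r + 1))^3) ((log N)² + x)` -/
noncomputable def bnd (K : ℝ) (N r : ℕ) (x : ℝ) : ℝ :=
  Real.exp (K * Real.log (r + 1) ^ 3) * (Real.log N ^ 2 + x)

open Pool.Agent.TH546.SAW in
theorem loops_eq {N : ℕ} (hN : 1 ≤ N) : loops N = (PL N : Set (ZMod (2 * N) → ℤ × ℤ)) := by
  ext f
  rw [Finset.mem_coe, mem_PL hN]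
  rfl

open Pool.Agent.U372.HP Pool.Agent.U126.QL Pool.Agent.TH546.SAW in
/-- **Extreme columns, supporting lines and circles of a self-avoiding polygon.** There is
`K > 0` such that for all `N ≥ 2` and `x ≥ 0` the uniform self-avoiding polygon of perimeter `2 N` on
`ℤ²` has the following properties, for all `r ≥ 1` at once, with probability at least `1 - e^{-x}`,
where `B = exp (K (log (r + 1))^3) ((log N)² + x)`:
(1) at most `B` vertices are in the columns within distance `r` of the leftmost one, and at most `B`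
near the rightmost one;
(2) at most `B` vertices are within distance `r` of any line which has the polygon in one of its
closed sides;
(3) at most `B` vertices are within distance `r` of any circle which has the polygon in its closed
interior, or its vertices in the closed exterior. -/
theorem result : ∃ K : ℝ, 0 < K ∧ ∀ N : ℕ, 2 ≤ N → ∀ x : ℝ, 0 ≤ x →
    prob N (fun f => ¬ ∀ r : ℕ, 1 ≤ r →
      ((leftmost r f : ℝ) ≤ bnd K N r x ∧ (rightmost r f : ℝ) ≤ bnd K N r x) ∧
      (∀ a b c : ℝ, (a ≠ 0 ∨ b ≠ 0) → (∀ i, c ≤ a * (f i).1 + b * (f i).2) →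
        (nearLine a b c r f : ℝ) ≤ bnd K N r x) ∧
      (∀ (z : ℝ × ℝ) (ρ : ℝ), ((∀ i, dist z (f i) ≤ ρ) ∨ ∀ i, ρ ≤ dist z (f i)) →
        (nearCircle z ρ r f : ℝ) ≤ bnd K N r x)) ≤ Real.exp (-x) := by
  obtain ⟨K, hK, h⟩ := poly_all
  refine ⟨K, hK, fun N hN x hx => ?_⟩
  have hN1 : 1 ≤ N := by omega
  have hne : NeZero (2 * N) := ⟨by omega⟩
  have hfin : Finite (ZMod (2 * N)) := Finite.of_fintype _
  have hPL : (0 : ℝ) < (PL N).card := by exact_mod_cast (PL_nonempty hN).card_pos
  unfold prob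
  rw [loops_eq hN1, Set.ncard_coe_finset, div_le_iff₀ hPL]
  refine le_trans ?_ (h N hN x hx)
  rw [← Set.ncard_coe_finset]
  refine Nat.cast_le.2 (Set.ncard_le_ncard ?_ (Finset.finite_toSet _))
  rintro f ⟨h1, h2⟩
  rw [Finset.mem_coe, Finset.mem_filter]
  refine ⟨h1, fun hcon => h2 (fun r hr => ?_)⟩
  obtain ⟨g1, g2, g3, -⟩ := hcon r hr
  have hmono : ∀ (S T : Set (ZMod (2 * N))), S ⊆ T → ((S.ncard : ℕ) : ℝ) ≤ ((T.ncard : ℕ) : ℝ) :=
    fun S T hST => by exact_mod_cast Set.ncard_le_ncard hST (Set.toFinite T)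
  refine ⟨⟨?_, ?_⟩, ?_, ?_⟩
  · obtain ⟨i0, hi0⟩ := Finite.exists_min (fun i => (f i).1)
    refine (hmono _ _ ?_).trans (g1 1 0 (f i0).1 (Or.inl one_ne_zero) ?_)
    · intro i hi
      rw [Set.mem_ofPred_eq] at hi ⊢
      have h3 : (((f i).1 : ℤ) : ℝ) ≤ (f i0).1 + r := by exact_mod_cast hi i0
      rw [show Real.sqrt ((1 : ℝ) ^ 2 + 0 ^ 2) = 1 by norm_num]
      linarith
    · intro i
      have h3 : (((f i0).1 : ℤ) : ℝ) ≤ (f i).1 := by exact_mod_cast hi0 i
      linarith
  · obtain ⟨i0, hi0⟩ := Finite.exists_max (fun i => (f i).1)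
    refine (hmono _ _ ?_).trans (g1 (-1) 0 (-(f i0).1) (Or.inl (by norm_num)) ?_)
    · intro i hi
      rw [Set.mem_ofPred_eq] at hi ⊢
      have h3 : (((f i0).1 : ℤ) : ℝ) ≤ (f i).1 + r := by exact_mod_cast hi i0
      rw [show Real.sqrt ((-1 : ℝ) ^ 2 + 0 ^ 2) = 1 by norm_num]
      linarith
    · intro i
      have h3 : (((f i).1 : ℤ) : ℝ) ≤ (f i0).1 := by exact_mod_cast hi0 i
      linarith
  · intro a b c hab hw
    refine (hmono _ _ ?_).trans (g1 a b c hab hw)
    intro i hi
    rw [Set.mem_ofPred_eq] at hi ⊢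
    have := (abs_le.1 hi).2
    linarith
  · rintro z ρ (hw | hw)
    · refine (hmono _ _ ?_).trans (g3 z ρ hw)
      intro i hi
      rw [Set.mem_ofPred_eq] at hi ⊢
      have := (abs_le.1 hi).1
      change ρ - r ≤ dist z (f i)
      linarith
    · refine (hmono _ _ ?_).trans (g2 z ρ hw)
      intro i hi
      rw [Set.mem_ofPred_eq] at hi ⊢
      have := (abs_le.1 hi).2
      change dist z (f i) ≤ ρ + r
      linarith

end Pool.Agent.Results.MP_c23e5f_co.ExtremeColumnsLog
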