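import Pool.Agent.U262.SW.R

/-!
The joint law of the width and the height of the planar self-avoiding polygons, and the law of their
variation along few vertices.
-/

set_option autoImplicit false

namespace Pool.Agent.Results.MP_c23e5f_co.JointWidthHeight

/-- a closed nearest-neighbour loop on `ℤ²` with `m` steps, rooted at the origin and oriented,
that visits no vertex twice -/
def IsLoop (m : ℕ) (f : ZMod m → ℤ × ℤ) : Prop :=
  f 0 = 0 ∧ Function.Injective f ∧
    ∀ i : ZMod m, |(f (i + 1)).1 - (f i).1| + |(f (i + 1)).2 - (f i).2| = 1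

/-- the proportion of the self-avoiding polygons of perimeter `2 n` with the property `E` -/
noncomputable def P (n : ℕ) (E : (ZMod (2 * n) → ℤ × ℤ) → Prop) : ℝ :=
  ({f : ZMod (2 * n) → ℤ × ℤ | IsLoop (2 * n) f ∧ E f}.ncard : ℝ) /
    ({f : ZMod (2 * n) → ℤ × ℤ | IsLoop (2 * n) f}.ncard : ℝ)

/-- the width is at least `w` and the height is at least `h` -/
def Box (n : ℕ) (w h : ℤ) (f : ZMod (2 * n) → ℤ × ℤ) : Prop :=
  (∃ i j, w ≤ (f i).1 - (f j).1) ∧ ∃ i j, h ≤ (f i).2 - (f j).2

/-- along some `k + 1` vertices in their cyclic order, starting from a vertex `f j`, the horizontal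
increments (from each of these vertices to the next one, and from the last one to the first one)
have in absolute value a sum of at least `2 w`, and the vertical ones a sum of at least `2 h` -/
def Varies (n k : ℕ) (w h : ℤ) (f : ZMod (2 * n) → ℤ × ℤ) : Prop :=
  ∃ (j : ZMod (2 * n)) (t : ℕ → ℕ), Monotone t ∧ (∀ i, t i < 2 * n) ∧
    2 * w ≤ ∑ i ∈ Finset.range k, |(f (j + t (i + 1))).1 - (f (j + t i)).1| +
      |(f (j + t k)).1 - (f (j + t 0)).1| ∧
    2 * h ≤ ∑ i ∈ Finset.range k, |(f (j + t (i + 1))).2 - (f (j + t i)).2| +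
      |(f (j + t k)).2 - (f (j + t 0)).2|

/-- **Theorem.** There are a constant `K` and a convex function `I` on the square
`|v₁| + |v₂| ≤ 1` such that for all `n ≥ 2` and all integers `w, h ≥ 0` with `w + h ≤ n`, other than
`(0, 0)`, `(n, 0)` and `(0, n)`:
(1) the proportion of the self-avoiding polygons of perimeter `2 n` with width at least `w` and
height at least `h` is positive, and it is `exp (- 2 n I (w / n, h / n))` up to a factor
`exp (± K (log n)^2)`;
(2) for every `k ≥ 1` so is, up to a factor `exp (± K k (log n)^2)`, the proportion of the polygons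
with a variation of at least `(2 w, 2 h)` along some `k + 1` vertices in their cyclic order. -/
theorem result : ∃ (K : ℝ) (I : ℝ × ℝ → ℝ), ConvexOn ℝ {v : ℝ × ℝ | |v.1| + |v.2| ≤ 1} I ∧
    ∀ n : ℕ, 2 ≤ n → ∀ w h : ℤ, 0 ≤ w → 0 ≤ h → w + h ≤ n → (w, h) ≠ (0, 0) →
      (w, h) ≠ ((n : ℤ), 0) → (w, h) ≠ (0, (n : ℤ)) →
    (0 < P n (Box n w h) ∧
      |Real.log (P n (Box n w h)) + 2 * n * I ((w : ℝ) / n, (h : ℝ) / n)| ≤
        K * Real.log n ^ 2) ∧
    ∀ k : ℕ, 1 ≤ k → 0 < P n (Varies n k w h) ∧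
      |Real.log (P n (Varies n k w h)) + 2 * n * I ((w : ℝ) / n, (h : ℝ) / n)| ≤
        K * k * Real.log n ^ 2 := by
  obtain ⟨K, hK, h1⟩ := U262.SW.loop_law
  refine ⟨K, Y981.L2.Rate, Y981.L2.convex_rate, fun n hn w h hw hh hle h0 hn1 hn2 => ?_⟩
  have hext : (w, h) ∉ U262.SW.Ext n := by
    rintro ⟨g1, g2⟩
    simp only at g1 g2
    rw [abs_of_nonneg hw, abs_of_nonneg hh] at g1
    rcases g2 with g2 | g2
    · apply hn2
      rw [g2, zero_add] at g1
      rw [g2, g1]
    · apply hn1
      rw [g2, add_zero] at g1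
      rw [g2, g1]
  obtain ⟨g1, g2⟩ := h1 n hn w h hw hh h0 hle hext
  exact ⟨g2, g1⟩

end Pool.Agent.Results.MP_c23e5f_co.JointWidthHeight
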