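import Pool.Agent.U262.SW.K

/-!
The differences of the vertices of the planar self-avoiding polygons: widths in all directions and
diameters in all norms.
-/

set_option autoImplicit false

namespace Pool.Agent.Results.MP_c23e5f_co.VertexDifferences

/-- a closed nearest-neighbour loop on `ℤ²` with `m` steps, rooted at the origin and oriented,
that visits no vertex twice -/
def IsLoop (m : ℕ) (f : ZMod m → ℤ × ℤ) : Prop :=
  f 0 = 0 ∧ Function.Injective f ∧
    ∀ i : ZMod m, |(f (i + 1)).1 - (f i).1| + |(f (i + 1)).2 - (f i).2| = 1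

/-- the proportion of the self-avoiding polygons of perimeter `2 n` two of whose vertices have a
difference in `A` -/
noncomputable def hit (n : ℕ) (A : Set (ℤ × ℤ)) : ℝ :=
  ({f : ZMod (2 * n) → ℤ × ℤ | IsLoop (2 * n) f ∧ ∃ i j, f i - f j ∈ A}.ncard : ℝ) /
    ({f : ZMod (2 * n) → ℤ × ℤ | IsLoop (2 * n) f}.ncard : ℝ)

/-- `ω` is an `n`-step self-avoiding walk on `ℤ²` started at the origin. -/
def IsSAW (n : ℕ) (ω : Fin (n + 1) → ℤ × ℤ) : Prop :=
  ω 0 = (0, 0) ∧
  (∀ i : Fin n, |(ω i.succ).1 - (ω i.castSucc).1| + |(ω i.succ).2 - (ω i.castSucc).2| = 1) ∧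
  Function.Injective ω

/-- the four points `(± n, 0)` and `(0, ± n)` -/
def Tips (n : ℕ) : Set (ℤ × ℤ) := {z | |z.1| + |z.2| = n ∧ (z.1 = 0 ∨ z.2 = 0)}

/-- the probability that the end point of the uniform `2 n`-step self-avoiding walk is `2 z` for
some `z` in `A` which is not one of the four points `(± n, 0)`, `(0, ± n)` -/
noncomputable def W (n : ℕ) (A : Set (ℤ × ℤ)) : ℝ :=
  (Nat.card {ω : Fin (2 * n + 1) → ℤ × ℤ // IsSAW (2 * n) ω ∧
      ∃ z ∈ A, z ∉ Tips n ∧ ω (Fin.last (2 * n)) = (2 * z.1, 2 * z.2)} : ℝ) /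
    (Nat.card {ω : Fin (2 * n + 1) → ℤ × ℤ // IsSAW (2 * n) ω} : ℝ)

theorem hit_eq (n : ℕ) (A : Set (ℤ × ℤ)) :
    hit n A = ((U262.SW.HA n A).ncard : ℝ) / Y981.L2.ln n := rfl

theorem W_eq (n : ℕ) (A : Set (ℤ × ℤ)) :
    W n A = (U262.SW.wA n A : ℝ) / TH795.EP.c (2 * n) := by
  unfold W
  have e1 : Nat.card {ω : Fin (2 * n + 1) → ℤ × ℤ // IsSAW (2 * n) ω ∧
      ∃ z ∈ A, z ∉ Tips n ∧ ω (Fin.last (2 * n)) = (2 * z.1, 2 * z.2)} = U262.SW.wA n A :=
    U262.SW.card_double n A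
  have e2 : Nat.card {ω : Fin (2 * n + 1) → ℤ × ℤ // IsSAW (2 * n) ω} = TH795.EP.c (2 * n) :=
    TH795.EP2.card_walks (2 * n)
  rw [e1, e2]

/-- **Theorem.** There are a constant `K` and a convex function `I` on the square
`|v₁| + |v₂| ≤ 1` such that for all `n ≥ 2`:
(1) for every set `A` of nonzero lattice vectors, the proportion of the self-avoiding polygons of
perimeter `2 n` which have two vertices with difference in `A` and the probability that the end
point of the `2 n`-step self-avoiding walk is `2 z` for some `z` in `A` other than `(± n, 0)`,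
`(0, ± n)` agree up to a factor `exp (± K (log n)^2)`;
(2) for every lattice vector `z ≠ 0` with `|z₁| + |z₂| ≤ n` other than `(± n, 0)`, `(0, ± n)`, the
proportion of the polygons which have two vertices with difference `z` is
`exp (- 2 n I (z / n))` up to a factor `exp (± K (log n)^2)`. -/
theorem result : ∃ (K : ℝ) (I : ℝ × ℝ → ℝ), ConvexOn ℝ {v : ℝ × ℝ | |v.1| + |v.2| ≤ 1} I ∧
    ∀ n : ℕ, 2 ≤ n →
    (∀ A : Set (ℤ × ℤ), ((0, 0) : ℤ × ℤ) ∉ A →
      Real.exp (-(K * Real.log n ^ 2)) * W n A ≤ hit n A ∧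
      hit n A ≤ Real.exp (K * Real.log n ^ 2) * W n A) ∧
    (∀ z : ℤ × ℤ, z ≠ (0, 0) → |z.1| + |z.2| ≤ n → z ∉ Tips n → 0 < hit n {z} ∧
      |Real.log (hit n {z}) + 2 * n * I ((z.1 : ℝ) / n, (z.2 : ℝ) / n)| ≤
        K * Real.log n ^ 2) := by
  obtain ⟨K1, hK1, h1⟩ := U262.SW.diff_law
  obtain ⟨K2, hK2, h2⟩ := Y981.L2.ldp_words
  refine ⟨K1 + 4 * K2, Y981.L2.Rate, Y981.L2.convex_rate, fun n hn => ?_⟩
  have hl : 0 ≤ Real.log (n : ℝ) ^ 2 := by positivity
  have u1 : 0 ≤ K1 * Real.log (n : ℝ) ^ 2 := by positivity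
  have u2 : 0 ≤ K2 * Real.log (n : ℝ) ^ 2 := by positivity
  have hW0 : ∀ A, 0 ≤ W n A := by intro A; unfold W; positivity
  have key : ∀ A : Set (ℤ × ℤ), ((0, 0) : ℤ × ℤ) ∉ A →
      hit n A ≤ Real.exp (K1 * Real.log n ^ 2) * W n A ∧
      W n A ≤ Real.exp (K1 * Real.log n ^ 2) * hit n A := by
    intro A hA
    rw [hit_eq, W_eq]
    exact h1 n hn A hA
  have key2 : ∀ A : Set (ℤ × ℤ), ((0, 0) : ℤ × ℤ) ∉ A →
      Real.exp (-(K1 * Real.log n ^ 2)) * W n A ≤ hit n A := by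
    intro A hA
    have h := mul_le_mul_of_nonneg_left (key A hA).2 (Real.exp_pos (-(K1 * Real.log n ^ 2))).le
    rwa [← mul_assoc, ← Real.exp_add, neg_add_cancel, Real.exp_zero, one_mul] at h
  refine ⟨fun A hA => ⟨?_, ?_⟩, ?_⟩
  · refine le_trans (mul_le_mul_of_nonneg_right (Real.exp_le_exp.2 ?_) (hW0 A)) (key2 A hA)
    linarith
  · refine (key A hA).1.trans (mul_le_mul_of_nonneg_right (Real.exp_le_exp.2 ?_) (hW0 A))
    linarith
  · intro z hz hle hext
    have hz0 : ((0, 0) : ℤ × ℤ) ∉ ({z} : Set (ℤ × ℤ)) := by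
      intro h
      exact hz (Set.mem_singleton_iff.1 h).symm
    have hsa : U262.SW.SA n {z} = {z} := by
      ext y
      rw [U262.SW.mem_SA, Finset.mem_singleton, Set.mem_singleton_iff]
      constructor
      · rintro ⟨-, h, -⟩; exact h
      · rintro rfl
        have c1 := abs_nonneg y.1
        have c2 := abs_nonneg y.2
        exact ⟨⟨by omega, by omega⟩, rfl, hext⟩
    have hwA : U262.SW.wA n {z} = TH795.EP.a (2 * n) (2 * z.1) (2 * z.2) := by
      unfold U262.SW.wA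
      rw [hsa, Finset.sum_singleton]
    have hz2 := U262.SW.two_ne hz
    have hle2 : |2 * z.1| + |2 * z.2| ≤ ((2 * n : ℕ) : ℤ) := by
      rw [abs_mul, abs_mul]
      have : |(2 : ℤ)| = 2 := by norm_num
      rw [this]
      push_cast
      omega
    have hpar : (2 * z.1 + 2 * z.2 - ((2 * n : ℕ) : ℤ)) % 2 = 0 := by push_cast; omega
    have g := h2 (2 * n) (by omega) (2 * z.1) (2 * z.2) hz2 hpar hle2
    have ha : (0 : ℝ) < TH795.EP.a (2 * n) (2 * z.1) (2 * z.2) := by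
      exact_mod_cast TH795.SE2.one_le_a hz2 hpar hle2
    have hWz : W n {z} = (TH795.EP.a (2 * n) (2 * z.1) (2 * z.2) : ℝ) / TH795.EP.c (2 * n) := by
      rw [W_eq, hwA]
    have hWpos : 0 < W n {z} := by
      rw [hWz]
      exact div_pos ha (TH795.EP2.c_pos _)
    have hpos : 0 < hit n {z} := lt_of_lt_of_le (by positivity) (key2 {z} hz0)
    refine ⟨hpos, ?_⟩
    rw [← hWz] at g
    have hn0 : (0 : ℝ) < n := by exact_mod_cast (by omega : 0 < n)
    have e1 : (((2 * z.1 : ℤ) : ℝ) / ((2 * n : ℕ) : ℝ), ((2 * z.2 : ℤ) : ℝ) / ((2 * n : ℕ) : ℝ)) =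
        ((z.1 : ℝ) / n, (z.2 : ℝ) / n) := by
      push_cast
      rw [mul_div_mul_left _ _ (by norm_num), mul_div_mul_left _ _ (by norm_num)]
    rw [e1] at g
    have l0 : 0 ≤ Real.log ((2 * n : ℕ) : ℝ) := Real.log_natCast_nonneg _
    have l1 := Y981.L2.log_two_mul hn
    have l2 := pow_le_pow_left₀ l0 l1 2
    have l3 : K2 * Real.log ((2 * n : ℕ) : ℝ) ^ 2 ≤ 4 * K2 * Real.log n ^ 2 := by
      calc K2 * Real.log ((2 * n : ℕ) : ℝ) ^ 2 ≤ K2 * (2 * Real.log n) ^ 2 :=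
            mul_le_mul_of_nonneg_left l2 hK2
        _ = _ := by ring
    have m1 := Real.log_le_log (by positivity) (key2 {z} hz0)
    have m2 := Real.log_le_log hpos (key {z} hz0).1
    rw [Real.log_mul (Real.exp_pos _).ne' hWpos.ne', Real.log_exp] at m1 m2
    obtain ⟨g1, g2⟩ := abs_le.1 g
    have e2 : ((2 * n : ℕ) : ℝ) = 2 * n := by push_cast; ring
    rw [e2] at g1 g2 l3
    rw [abs_le]
    constructor <;> linarith

end Pool.Agent.Results.MP_c23e5f_co.VertexDifferences
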