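import Pool.Agent.U198.AC.Pa

/-!
Self-avoiding polygons on the square lattice: analytic continuation, across the circle of
convergence, of the generating functions of all functions of the width and the height.
-/

set_option autoImplicit false

namespace Pool.Agent.Results.MP_c23e5f_co.WidthContinuation

open Filter Topology

/-- `ω` is an `n`-step self-avoiding walk on `ℤ²` started at the origin. -/
def IsSAW (n : ℕ) (ω : Fin (n + 1) → ℤ × ℤ) : Prop :=
  ω 0 = (0, 0) ∧
  (∀ i : Fin n, |(ω i.succ).1 - (ω i.castSucc).1| + |(ω i.succ).2 - (ω i.castSucc).2| = 1) ∧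
  Function.Injective ω

/-- the number of `n`-step self-avoiding walks on `ℤ²` started at the origin -/
noncomputable def c (n : ℕ) : ℕ := {ω | IsSAW n ω}.ncard

/-- a closed nearest-neighbour loop on `ℤ²` with `m` steps, rooted at the origin and oriented,
that visits no vertex twice -/
def IsLoop (m : ℕ) (f : ZMod m → ℤ × ℤ) : Prop :=
  f 0 = 0 ∧ Function.Injective f ∧
    ∀ i : ZMod m, |(f (i + 1)).1 - (f i).1| + |(f (i + 1)).2 - (f i).2| = 1

/-- the width (horizontal extent) of a loop -/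
noncomputable def width (m : ℕ) (f : ZMod m → ℤ × ℤ) : ℕ :=
  sSup {w : ℕ | ∃ i j, w = ((f i).1 - (f j).1).natAbs}

/-- the height (vertical extent) of a loop -/
noncomputable def height (m : ℕ) (f : ZMod m → ℤ × ℤ) : ℕ :=
  sSup {w : ℕ | ∃ i j, w = ((f i).2 - (f j).2).natAbs}

/-- the sum of `φ (width P) (height P)` over the self-avoiding polygons `P` of perimeter `2 n` (up to
translation): each of them corresponds to `4 n` loops, by the choices of the starting point and of
the orientation. For `φ = 1` this is the number `|𝒫_{2n}|` of polygons, for `φ a b = a` it is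
`|𝒫_{2n}| W_n`. -/
noncomputable def S (φ : ℕ → ℕ → ℝ) (n : ℕ) : ℝ :=
  (∑ᶠ f ∈ {f : ZMod (2 * n) → ℤ × ℤ | IsLoop (2 * n) f},
    φ (width (2 * n) f) (height (2 * n) f)) / (4 * (n : ℝ))

/-- `cos (2 arg z)` for `z ≠ 0` -/
noncomputable def cos2 (z : ℂ) : ℝ := (z ^ 2).re / ‖z‖ ^ 2

/-- The domain `|z| < (1 + δ (1 - cos (2 arg z))) / μ`: the disc `|z| < 1/μ` enlarged at all points
of the circle `|z| = 1/μ` except `±1/μ`. -/
def Dom (μ δ : ℝ) : Set ℂ := {z | μ * ‖z‖ < 1 + δ * (1 - cos2 z)}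

open Pool.Agent.H976R2 Pool.Agent.N929.EZ Pool.Agent.H739K Pool.Agent.N929.AC Pool.Agent.U198.AC

theorem height_eq (w : List Dir) :
    (Pool.Agent.H924P.height (w.length + 1) (Pool.Agent.H739K.lp (w.length + 1) w) : ℤ) =
      mxy w - mny w := by
  have hv : ∀ p, vis w p → ∃ t, t ≤ w.length ∧ Lip.PP w t = p := by
    rintro p ⟨a, b, h1, h2, h3⟩
    refine ⟨a.length, by rw [h1]; simp, ?_⟩
    unfold Lip.PP
    have : w.take a.length = a := by rw [h1]; simp
    rw [this, h2, h3]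
  have hv' : ∀ t, vis w (Lip.PP w t) := fun t =>
    ⟨w.take t, w.drop t, (List.take_append_drop t w).symm, rfl, rfl⟩
  refine Pool.Agent.H739K.BOXx.height_of w (mxy w) (mny w) ?_ ?_ ?_
  · intro p hp
    obtain ⟨t, ht, rfl⟩ := hv p hp
    exact ⟨mny_le w ht, le_mxy w ht⟩
  · obtain ⟨t, ht, h⟩ := mxy_att w
    exact ⟨_, hv' t, h⟩
  · obtain ⟨t, ht, h⟩ := mny_att w
    exact ⟨_, hv' t, h⟩

/-- the functional on words -/
noncomputable def GG (φ : ℕ → ℕ → ℝ) (w : List Dir) : ℝ :=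
  φ (mxx w - mnx w).toNat (mxy w - mny w).toNat

theorem S_eq (φ : ℕ → ℕ → ℝ) {n : ℕ} (hn : 2 ≤ n) :
    S φ n = (∑ w ∈ KP (2 * n - 1), GG φ w) / (4 * (n : ℝ)) := by
  obtain ⟨h1, h2, -⟩ := Pool.Agent.H739K.CONV_proof n hn
  unfold S
  have e1 : {f : ZMod (2 * n) → ℤ × ℤ | IsLoop (2 * n) f} =
    {f : ZMod (2 * n) → ℤ × ℤ | Pool.Agent.H924P.IsLoop (2 * n) f} := rfl
  rw [e1, h1 (fun f => φ (width (2 * n) f) (height (2 * n) f))]
  congr 1
  refine Finset.sum_congr rfl (fun w hw => ?_)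
  have hl : w.length + 1 = 2 * n := by
    have := (mem_SW.1 (Finset.mem_filter.1 hw).1).1
    omega
  have h3 := width_eq w
  have h4 := height_eq w
  rw [hl] at h3 h4
  have e3 : width (2 * n) (lp (2 * n) w) = (mxx w - mnx w).toNat := by
    rw [← h3]
    rfl
  have e4 : height (2 * n) (lp (2 * n) w) = (mxy w - mny w).toNat := by
    rw [← h4]
    rfl
  rw [e3, e4]
  rfl

/-- **Theorem.** Let `μ` be the connective constant of `ℤ²`. There is `δ > 0` such that for every
function `φ` of polynomial growth of the width and the height the generating function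
`∑_{n ≥ 2} (∑_P φ(width P, height P)) z^(2n)` of the self-avoiding polygons (by perimeter) extends
holomorphically from the disc `|z| < 1/μ` to the connected open domain `Dom μ δ`, which contains all
points of the circle `|z| = 1/μ` except `z = 1/μ` and `z = -1/μ` and does not depend on `φ`. -/
theorem result : ∃ μ : ℝ, 1 ≤ μ ∧
    Tendsto (fun n : ℕ => (c n : ℝ) ^ (1 / (n : ℝ))) atTop (𝓝 μ) ∧
    ∃ δ : ℝ, 0 < δ ∧
    (IsOpen (Dom μ δ) ∧ IsPreconnected (Dom μ δ) ∧ (∀ z : ℂ, μ * ‖z‖ < 1 → z ∈ Dom μ δ) ∧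
      ∀ z : ℂ, μ * ‖z‖ = 1 → z ≠ ((1 / μ : ℝ) : ℂ) → z ≠ ((-(1 / μ) : ℝ) : ℂ) → z ∈ Dom μ δ) ∧
    ∀ (B : ℝ) (p : ℕ) (φ : ℕ → ℕ → ℝ), (∀ a b : ℕ, |φ a b| ≤ B * (1 + (a : ℝ) + b) ^ p) →
      ∃ F : ℂ → ℂ, DifferentiableOn ℂ F (Dom μ δ) ∧
        ∀ z : ℂ, μ * ‖z‖ < 1 → HasSum (fun n => (S φ (n + 2) : ℂ) * z ^ (2 * (n + 2))) (F z) := by
  obtain ⟨μ, hμ, hlim, δ, hδ, ⟨d1, d2, d3, d4⟩, h⟩ := pg_main
  refine ⟨μ, hμ, ?_, δ, hδ, ⟨d1, d2, d3, fun z hz z1 z2 => ?_⟩, fun B p φ hφ => ?_⟩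
  · refine hlim.congr fun n => ?_
    congr 1
    exact_mod_cast (Pool.Agent.H976R2.ncard_saw n).symm
  · refine d4 z hz fun h3 => ?_
    have hn : ‖z‖ = 1 / μ := by field_simp; linarith
    rw [hn] at h3
    rcases sq_eq_sq_iff_eq_or_eq_neg.1 h3 with h4 | h4
    · exact z1 h4
    · exact z2 (by rw [h4]; push_cast; rfl)
  · have hB : 0 ≤ B := by
      have h0 := (abs_nonneg _).trans (hφ 0 0)
      simpa using h0
    obtain ⟨F, h1, h2⟩ := h (GG φ) (81 * (B * 5 ^ p)) p (by positivity)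
      (fun L hL st fl hfl w hw hs h3 => by
        refine rp_ext (fun a b => φ a.toNat b.toNat) B p hB (fun a b ha hb => ?_) hL hfl hw
        refine (hφ _ _).trans (le_of_eq ?_)
        have e1 : ((a.toNat : ℕ) : ℝ) = (a : ℝ) := by
          exact_mod_cast Int.toNat_of_nonneg ha
        have e2 : ((b.toNat : ℕ) : ℝ) = (b : ℝ) := by
          exact_mod_cast Int.toNat_of_nonneg hb
        rw [e1, e2])
    refine ⟨F, h1, fun z hz => ?_⟩
    have h3 := h2 z hz
    have hinj : Function.Injective (fun n : ℕ => 2 * (n + 2)) := fun a b h => by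
      simp only at h
      omega
    rw [← hinj.hasSum_iff] at h3
    · refine (congrArg (fun g => HasSum g (F z)) ?_).mp h3
      funext n
      have e : pw (GG φ) (2 * (n + 2)) = S φ (n + 2) := by
        unfold pw
        rw [if_pos ⟨by simp, by omega⟩, S_eq φ (by omega)]
        congr 1
        push_cast
        ring
      show (pw (GG φ) (2 * (n + 2)) : ℂ) * z ^ (2 * (n + 2)) = _
      rw [e]
    · intro m hm
      have e : pw (GG φ) m = 0 := by
        unfold pw
        rw [if_neg]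
        rintro ⟨he, h4⟩
        apply hm
        obtain ⟨k, hk⟩ := he
        exact ⟨k - 2, by simp only; omega⟩
      rw [e]
      simp

end Pool.Agent.Results.MP_c23e5f_co.WidthContinuation
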